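import Pool.Agent.H42.UNull

namespace Pool.Agent.Results.MP_4d4d44_lc.Full

open MeasureTheory

/-- Universally null subsets of the Cantor space. -/
def UniversallyNull (A : Set (ℕ → Bool)) : Prop :=
  ∀ μ : Measure (ℕ → Bool), IsFiniteMeasure μ → (∀ x, μ {x} = 0) → μ A = 0

/-- Countably perfectly null subsets of the Cantor space. -/
def CountablyPerfectlyNull (A : Set (ℕ → Bool)) : Prop :=
  ∀ μ : Measure (ℕ → Bool), IsFiniteMeasure μ → (∀ x, μ {x} = 0) →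
    ∃ C : ℕ → Set (ℕ → Bool), (∀ k, IsClosed (C k)) ∧ A ⊆ ⋃ k, C k ∧ μ (⋃ k, C k) = 0

theorem result : ∃ A : Set (ℕ → Bool), UniversallyNull A ∧ ¬ CountablyPerfectlyNull A := by
  obtain ⟨A, h1, μ, h2, h3, h4⟩ := Pool.Agent.H42.UNull.main
  refine ⟨A, h1, fun h => ?_⟩
  obtain ⟨C, c1, c2, c3⟩ := h μ h2 h3
  exact h4 C c1 c2 c3

end Pool.Agent.Results.MP_4d4d44_lc.Full
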